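import Pool.Agent.helper12.DD.Spec2

/-!
# Project dw, module TIS: irreducible characters of products of subgroups
-/

set_option autoImplicit false

open Pool.Agent.helper49.Blk

namespace Pool.Agent.DD

/-- the obvious isomorphism -/
def TIS_iso {G T : Type} [Group G] (N : T → Subgroup G) :
    (∀ t, N t) ≃* ↥(Subgroup.pi Set.univ N) where
  toFun x := ⟨fun t => (x t : G), fun t _ => (x t).2⟩
  invFun y t := ⟨y.1 t, y.2 t (Set.mem_univ t)⟩
  left_inv x := rfl
  right_inv y := rfl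
  map_mul' x y := rfl

theorem TIS (h : TIR_stmt) : TIS_stmt := by
  intro G T _ _ _ N ψ
  have h1 := h T (fun t => N t)
  constructor
  · intro hψ
    have h2 : (fun x => ψ (TIS_iso N x)) ∈ Irr (∀ t, N t) := (TRI _ _ (TIS_iso N) ψ).1 hψ
    obtain ⟨χ, hχ, e⟩ := (h1 _).1 h2
    refine ⟨χ, hχ, ?_⟩
    funext y
    exact congrFun e ((TIS_iso N).symm y)
  · rintro ⟨ψ', hψ', e⟩
    refine (TRI _ _ (TIS_iso N) ψ).2 ((h1 _).2 ⟨ψ', hψ', ?_⟩)
    funext x
    rw [e]
    rfl

end Pool.Agent.DD
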